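import Pool.Agent.J4.H45.MT.Res

/-!
# Zeros with many neighbours, in particular of high multiplicity, in every weight `|R|²`

Unconditionally, there are absolute constants `c, δ > 0`, `C` such that for all large `T`, all
intervals `(T, T + K]` with `T ^ (1 - δ) ≤ K ≤ T / 2`, every Dirichlet polynomial
`R(t) = ∑ r(n) n ^ (- i t)` over integers `n ≤ T ^ δ` with arbitrary complex coefficients and every
`j ≥ 1`: the nontrivial zeros `β + iγ` of zeta with `T < γ ≤ T + K`, on or off the critical line, for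
which at least `j` nontrivial zeros have an ordinate in `[γ - 1 / log T, γ + 1 / log T]` (everything
counted with multiplicity) contribute at most `C exp (- c j) K log T ∑ |r(n)|²` to the sum of
`|R(γ)|²`. This includes the zeros of Hardy's function `Z` of multiplicity at least `j`. An
exponential moment of the number of neighbours is bounded in every such weight.

The proof: a positive band-limited kernel of width `ℓ = c log T / j` bounds the number of zeros with
ordinate near `t` by `O(j) + |P(t)|` with `P` a polynomial over the primes `p ≤ exp (2 ℓ)`, up to a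
sum over the zeros with distance `≥ c' / ℓ` from the line, which is controlled by a density theorem
of Selberg's strength for all these weights (`Pool.Agent.N802.WD`); the moments of order
`c log T / ℓ` of `P` are bounded in every weight.
-/

open Filter Topology Complex

namespace Pool.Agent.Results.MP_6bc78b_nt.HighMultiplicitiesEveryWeight

/-- the phase `exp (i ϑ(t))`, with `ϑ(t) = arg Γ(1/4 + i t / 2) - (t / 2) log π` -/
noncomputable def phase (t : ℝ) : ℂ :=
  Gamma (1 / 4 + I * t / 2) / ‖Gamma (1 / 4 + I * t / 2)‖ * cexp (-(I * (t / 2) * Real.log Real.pi))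

/-- Hardy's function `Z(t) = exp (i ϑ(t)) ζ(1/2 + i t)` -/
noncomputable def Z (t : ℝ) : ℂ := phase t * riemannZeta (1 / 2 + I * t)

/-- the multiplicity of a real zero `t` of `Z`: the least `m ≥ 1` such that the `m`-th derivative of
`Z` at `t` is not zero -/
noncomputable def mlt (t : ℝ) : ℕ := sInf {m : ℕ | 1 ≤ m ∧ iteratedDeriv m Z t ≠ 0}

/-- the zeros of `Z` in `(T₁, T₂]` -/
def zeros (T₁ T₂ : ℝ) : Set ℝ := {t : ℝ | T₁ < t ∧ t ≤ T₂ ∧ Z t = 0}

/-- all zeros of zeta in the open critical strip with ordinates in `(T₁, T₂]` -/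
def allZeros (T₁ T₂ : ℝ) : Set ℂ :=
  {s : ℂ | riemannZeta s = 0 ∧ 0 < s.re ∧ s.re < 1 ∧ T₁ < s.im ∧ s.im ≤ T₂}

/-- the multiplicity of a zero of zeta -/
noncomputable def mult (s : ℂ) : ℕ := analyticOrderNatAt riemannZeta s

/-- the number of zeros of zeta in the open critical strip with ordinate at distance at most
`1 / log T` from `t`, counted with multiplicity -/
noncomputable def near (T t : ℝ) : ℕ :=
  ∑ᶠ s ∈ {s : ℂ | riemannZeta s = 0 ∧ 0 < s.re ∧ s.re < 1 ∧ |s.im - t| ≤ 1 / Real.log T}, mult s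

/-- the Dirichlet polynomial `∑ r(n) n ^ (- i t)`, `n` in `S` -/
noncomputable def R (S : Finset ℕ) (r : ℕ → ℂ) (t : ℝ) : ℂ :=
  ∑ n ∈ S, r n * (n : ℂ) ^ (-(I * t))

lemma zeros_eq {T₁ T₂ : ℝ} (h : 1 ≤ T₁) :
    allZeros T₁ T₂ = (H370.Zf riemannZeta T₁ T₂ : Set ℂ) := by
  ext s
  rw [Finset.mem_coe, H370.mem_Zf H370.good_zeta h]
  unfold allZeros H370.zset
  simp only [Set.mem_ofPred_eq]
  tauto

/-- **Theorem.** The sets of zeros are finite. There are `c, δ > 0`, `C` such that for all large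
`T`, all `K` with `T ^ (1 - δ) ≤ K ≤ T / 2`, all Dirichlet polynomials `R` over integers `≤ T ^ δ`
and with `M = K log T ∑ |r(n)|²`:
* for all real `j ≥ 1` the sum of `|R(γ)|²` over the nontrivial zeros `β + iγ` of zeta with
  `T < γ ≤ T + K` and with at least `j` nontrivial zeros with ordinate at distance `≤ 1 / log T` from
  `γ` (everything counted with multiplicity) is at most `C exp (- c j) M`;
* for all real `j ≥ 1` the sum of `|R(t)|²` over the zeros `t` of `Z` in `(T, T + K]` of multiplicity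
  at least `j`, counted with multiplicity, is at most `C exp (- c j) M`;
* the sum of `exp ((c / 2) n(γ)) |R(γ)|²` over the nontrivial zeros with `T < γ ≤ T + K`, `n(γ)`
  the number of nontrivial zeros with ordinate at distance `≤ 1 / log T` from `γ`, is at most
  `C M`. -/
theorem result :
    (∀ T₁ T₂ : ℝ, 1 ≤ T₁ → (allZeros T₁ T₂).Finite ∧ (zeros T₁ T₂).Finite) ∧
    ∃ c C δ T₀ : ℝ, 0 < c ∧ 0 < δ ∧ ∀ T : ℝ, T₀ ≤ T → ∀ K : ℝ, T ^ (1 - δ) ≤ K → K ≤ T / 2 →
      ∀ S : Finset ℕ, (∀ n ∈ S, 1 ≤ n ∧ (n : ℝ) ≤ T ^ δ) → ∀ r : ℕ → ℂ,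
      (∀ j : ℝ, 1 ≤ j →
        ∑ᶠ s ∈ {s : ℂ | s ∈ allZeros T (T + K) ∧ j ≤ near T s.im},
          (mult s : ℝ) * ‖R S r s.im‖ ^ 2 ≤
        C * Real.exp (-(c * j)) * (K * Real.log T * ∑ n ∈ S, ‖r n‖ ^ 2)) ∧
      (∀ j : ℝ, 1 ≤ j →
        ∑ᶠ t ∈ {t : ℝ | t ∈ zeros T (T + K) ∧ j ≤ mlt t}, (mlt t : ℝ) * ‖R S r t‖ ^ 2 ≤
        C * Real.exp (-(c * j)) * (K * Real.log T * ∑ n ∈ S, ‖r n‖ ^ 2)) ∧
      ∑ᶠ s ∈ allZeros T (T + K),
        (mult s : ℝ) * (Real.exp (c / 2 * near T s.im) * ‖R S r s.im‖ ^ 2) ≤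
        C * (K * Real.log T * ∑ n ∈ S, ‖r n‖ ^ 2) := by
  classical
  obtain ⟨c, C, δ, T0, hc, hC, hδ, hT0, hW⟩ := J4.H45.MT.wt_un
  have hs := J4.H45.MT.summ_un (C := C) (show c / 2 < c by linarith)
  have hφ : ∀ x : ℝ, 0 ≤ C * Real.exp (-(c * x)) := fun x => (mul_pos hC (Real.exp_pos _)).le
  refine ⟨fun T₁ T₂ h => ⟨?_, ?_⟩,
    c, max C (∑' i : ℕ, Real.exp (c / 2 * i) * (C * Real.exp (-(c * i)))), δ, T0, hc, hδ,
    fun T hT K hK1 hK2 S hS r => ?_⟩
  · rw [zeros_eq h]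
    exact Finset.finite_toSet _
  · exact (J4.H45.MT.conv (H370.Zf riemannZeta T₁ T₂) (zeros T₁ T₂)
      (fun t ht => J4.H45.MT.zs_mem h ht) (fun _ => 1)).1
  have hT1 : 1 ≤ T := by linarith
  have hK0 : 0 ≤ K := le_trans (by positivity) hK1
  have hlog : 0 ≤ Real.log T := Real.log_nonneg hT1
  have hM : 0 ≤ K * Real.log T * ∑ n ∈ S, ‖r n‖ ^ 2 := by positivity
  set C₁ := max C (∑' i : ℕ, Real.exp (c / 2 * i) * (C * Real.exp (-(c * i)))) with hC₁
  have hCC : C ≤ C₁ := le_max_left _ _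
  have hRP : ∀ t, R S r t = N802.RP S r t := fun t => J4.H45.MT.RP_eq hS r t
  have hup : ∀ j : ℝ, C * Real.exp (-(c * j)) * (K * Real.log T * ∑ n ∈ S, ‖r n‖ ^ 2) ≤
      C₁ * Real.exp (-(c * j)) * (K * Real.log T * ∑ n ∈ S, ‖r n‖ ^ 2) := by
    intro j
    have := Real.exp_pos (-(c * j))
    gcongr
  refine ⟨fun j hj => ?_, fun j hj => ?_, ?_⟩
  · refine le_trans ?_ (hup j)
    obtain ⟨B, hB⟩ : ∃ B : Finset ℂ,
        {s : ℂ | s ∈ allZeros T (T + K) ∧ j ≤ near T s.im} = (B : Set ℂ) := by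
      have hf : {s : ℂ | s ∈ allZeros T (T + K) ∧ j ≤ near T s.im}.Finite := by
        refine Set.Finite.subset ?_ (fun s hs => hs.1 : _ ⊆ allZeros T (T + K))
        rw [zeros_eq hT1]
        exact Finset.finite_toSet _
      exact ⟨hf.toFinset, hf.coe_toFinset.symm⟩
    rw [hB, finsum_mem_coe_finset]
    have h := hW T hT K hK1 hK2 S hS r j hj B (fun s hs => by
      have h1 : s ∈ (B : Set ℂ) := hs
      rw [← hB] at h1
      obtain ⟨⟨g1, g2, g3, g4, g5⟩, g6⟩ := h1
      exact ⟨g1, g2, g3, g4, g5, g6⟩)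
    refine le_trans (le_of_eq ?_) h
    refine Finset.sum_congr rfl fun s _ => ?_
    rw [hRP]
    rfl
  · refine le_trans ?_ (hup j)
    have h := J4.H45.MT.tail_z hT0 hW hT hK1 hK2 hS r hj
      {t : ℝ | t ∈ zeros T (T + K) ∧ j ≤ mlt t} (fun t ht => ht.1) (fun t ht => by
        have h1 : mlt t ≤ J4.H45.MT.nz (1 / Real.log T) t :=
          J4.H45.MT.mlt_le_nz (hT0.trans hT) ht.1.1 ht.1.2.2
        have h2 : (mlt t : ℝ) ≤ J4.H45.MT.nz (1 / Real.log T) t := by exact_mod_cast h1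
        exact ht.2.trans h2)
    simp only [hRP]
    exact h
  · rw [zeros_eq hT1, finsum_mem_coe_finset]
    have h := J4.H45.MT.wt_exp hT0 hφ hW hs T hT K hK1 hK2 S hS r
      (H370.Zf riemannZeta T (T + K)) (fun s hs => by
        rw [H370.mem_Zf H370.good_zeta hT1] at hs
        obtain ⟨g1, g2, g3, g4, g5⟩ := hs
        exact ⟨g5, g1, g2, g3, g4⟩)
    have h2 : (∑' i : ℕ, Real.exp (c / 2 * i) * (C * Real.exp (-(c * i)))) *
        (K * Real.log T * N802.w1 S r) ≤ C₁ * (K * Real.log T * ∑ n ∈ S, ‖r n‖ ^ 2) := by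
      have e : N802.w1 S r = ∑ n ∈ S, ‖r n‖ ^ 2 := rfl
      rw [e]
      exact mul_le_mul_of_nonneg_right (le_max_right _ _) hM
    refine le_trans (le_of_eq ?_) (h.trans h2)
    refine Finset.sum_congr rfl fun s _ => ?_
    rw [hRP]
    rfl

end Pool.Agent.Results.MP_6bc78b_nt.HighMultiplicitiesEveryWeight
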