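import Pool.Agent.J4.H62.NR.Fin

/-!
# Multiple zeros and zeros off the line stay away from the local maxima of Hardy's function

Unconditionally, for every `ε > 0` there is an `A` such that for all large `t` the following holds, with
`g = 2π / log (t / 2π)` the mean spacing of the zeros at height `t`.

(1) Let `x` be a multiple zero of `Z`, or let `s` be a zero of zeta in the critical strip off the critical line, and let
`D` be its distance from `1/2 + i t` in mean spacings.  If `D ≤ √3/2`, then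
`|Z(t)| ≤ (|cos (π √(D² + 1/4))| + ε) max |Z|`, the maximum over `[t - A, t + A]`.

(2) Let `x ≠ y` be zeros of `Z` within `K` mean spacings of `t` and let `P` be the product of their signed distances
from `t` in mean spacings.  If `P ≤ 3/4`, then `|Z(t)| ≤ (|cos (π √(P + 1/4))| + ε) max |Z|` (with `√` of a negative
number being `0`).

(3) If `|Z(t)|` is the maximum of `|Z|` on `[t - A, t + A]`, then every zero of zeta in the disc of radius
`(√3/2 - ε) g` about `1/2 + i t` lies on the critical line and is a simple zero of `Z`, and there is at most one on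
each side of `t`; if there are two, the product of their distances from `t` is at least `(1/4 - ε) g²`.  Two zeros of
`Z` on the same side of `t` have distances with product at least `(3/4 - ε) g²`.

The proof: a sharp comparison theorem for functions of exponential type with two given zeros (extremal functions
`cos √((x - c)² + β)`), obtained by interpolation at the points where the extremal function is `± 1`; zeta is compared
with such functions in discs of radius `O(1 / log t)` with the help of the maximum principle and the functional equation.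
-/

open Filter Topology Complex

namespace Pool.Agent.Results.MP_6bc78b_nt.NearLocalMaxima

/-- the phase `exp (i ϑ(t))`, with `ϑ(t) = arg Γ(1/4 + i t / 2) - (t / 2) log π` -/
noncomputable def phase (t : ℝ) : ℂ :=
  Gamma (1 / 4 + I * t / 2) / ‖Gamma (1 / 4 + I * t / 2)‖ * cexp (-(I * (t / 2) * Real.log Real.pi))

/-- Hardy's function `Z(t) = exp (i ϑ(t)) ζ(1/2 + i t)` -/
noncomputable def Z (t : ℝ) : ℂ := phase t * riemannZeta (1 / 2 + I * t)

/-- the mean spacing of the zeros at height `t` -/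
noncomputable def gap (t : ℝ) : ℝ := 2 * Real.pi / Real.log (t / (2 * Real.pi))

/-- the comparison function; `√` of a negative number is `0` -/
noncomputable def q (P : ℝ) : ℝ := |Real.cos (Real.pi * Real.sqrt (P + 1 / 4))|

lemma gamma_ne (t : ℝ) : Gamma (1 / 4 + I * t / 2) ≠ 0 := by
  apply Gamma_ne_zero_of_re_pos
  simp

lemma gamma_cont : Continuous fun t : ℝ => Gamma (1 / 4 + I * t / 2) := by
  rw [continuous_iff_continuousAt]
  intro t
  have h1 : ContinuousAt Gamma (1 / 4 + I * t / 2) := by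
    refine (differentiableAt_Gamma _ fun m hm => ?_).continuousAt
    have := congrArg Complex.re hm
    simp at this
    have hm0 : (0 : ℝ) ≤ m := Nat.cast_nonneg m
    linarith
  exact ContinuousAt.comp (f := fun t : ℝ => (1 / 4 + I * t / 2 : ℂ)) h1 (by fun_prop)

lemma phase_cont : Continuous phase := by
  unfold phase
  refine Continuous.mul (gamma_cont.div ?_ ?_) (by fun_prop)
  · exact Complex.continuous_ofReal.comp gamma_cont.norm
  · intro t
    rw [Complex.ofReal_ne_zero]
    exact norm_ne_zero_iff.mpr (gamma_ne t)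

lemma phase_ne (t : ℝ) : phase t ≠ 0 := by
  unfold phase
  refine mul_ne_zero (div_ne_zero (gamma_ne t) ?_) (Complex.exp_ne_zero _)
  rw [Complex.ofReal_ne_zero]
  exact norm_ne_zero_iff.mpr (gamma_ne t)

lemma phase_norm (t : ℝ) : ‖phase t‖ = 1 := by
  unfold phase
  rw [norm_mul, norm_div, Complex.norm_real, norm_norm, div_self (norm_ne_zero_iff.mpr (gamma_ne t)), one_mul]
  have : (-(I * (t / 2) * Real.log Real.pi) : ℂ) = ((-((t / 2) * Real.log Real.pi) : ℝ) : ℂ) * I := by
    push_cast; ring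
  rw [this]
  exact Complex.norm_exp_ofReal_mul_I _

lemma Z_norm (t : ℝ) : ‖Z t‖ = ‖riemannZeta (1 / 2 + I * t)‖ := by
  unfold Z
  rw [norm_mul, phase_norm, one_mul]

lemma Z_zero_iff (t : ℝ) : Z t = 0 ↔ riemannZeta (1 / 2 + I * t) = 0 := by
  unfold Z
  rw [mul_eq_zero]
  exact ⟨fun h => h.resolve_left (phase_ne t), Or.inr⟩

lemma zeta_diff (t : ℝ) : DifferentiableAt ℂ riemannZeta (1 / 2 + I * t) := by
  refine differentiableAt_riemannZeta fun h => ?_
  have := congrArg Complex.re h
  norm_num at this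

lemma Z_hasDerivAt (t : ℝ) (h : riemannZeta (1 / 2 + I * t) = 0) :
    HasDerivAt Z (phase t * (deriv riemannZeta (1 / 2 + I * t) * I)) t := by
  have hg : HasDerivAt (fun u : ℝ => riemannZeta (1 / 2 + I * u))
      (deriv riemannZeta (1 / 2 + I * t) * I) t := by
    have h1 : HasDerivAt (fun u : ℝ => (1 / 2 + I * u : ℂ)) I t := by
      have h2 : HasDerivAt (fun u : ℝ => (u : ℂ)) 1 t := Complex.ofRealCLM.hasDerivAt
      simpa using (h2.const_mul I).const_add (1 / 2 : ℂ)
    exact HasDerivAt.comp (h₂ := riemannZeta) t (zeta_diff t).hasDerivAt h1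
  rw [hasDerivAt_iff_tendsto_slope] at hg ⊢
  have h3 : Tendsto phase (𝓝[≠] t) (𝓝 (phase t)) :=
    phase_cont.continuousAt.tendsto.mono_left nhdsWithin_le_nhds
  refine (h3.mul hg).congr fun u => ?_
  have hZ : Z t = 0 := (Z_zero_iff t).mpr h
  rw [slope_def_module, slope_def_module, hZ, h, sub_zero, sub_zero]
  unfold Z
  simp only [Complex.real_smul]
  ring

/-- at a zero, the derivatives of `Z` and of zeta vanish together -/
lemma deriv_iff {t : ℝ} (h : Z t = 0) : deriv Z t = 0 ↔ deriv riemannZeta (1 / 2 + I * t) = 0 := by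
  rw [(Z_hasDerivAt t ((Z_zero_iff t).1 h)).deriv, mul_eq_zero, mul_eq_zero]
  constructor
  · intro h1
    exact (h1.resolve_left (phase_ne t)).resolve_right I_ne_zero
  · intro h1
    exact Or.inr (Or.inl h1)

theorem result (K ε : ℝ) (hε : 0 < ε) : ∃ A T₀ : ℝ, ∀ t : ℝ, T₀ ≤ t → 0 < gap t ∧
    -- (1), (2): the comparison theorem
    (∀ M : ℝ, (∀ u : ℝ, |u - t| ≤ A → ‖Z u‖ ≤ M) →
      (∀ x : ℝ, Z x = 0 → deriv Z x = 0 → |x - t| ≤ √3 / 2 * gap t →
        ‖Z t‖ ≤ (q (((x - t) / gap t) ^ 2) + ε) * M) ∧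
      (∀ s : ℂ, riemannZeta s = 0 → 0 < s.re → s.re < 1 → s.re ≠ 1 / 2 →
        ‖s - (1 / 2 + I * t)‖ ≤ √3 / 2 * gap t →
        ‖Z t‖ ≤ (q ((‖s - (1 / 2 + I * t)‖ / gap t) ^ 2) + ε) * M) ∧
      (∀ x y : ℝ, x ≠ y → Z x = 0 → Z y = 0 → |x - t| ≤ K * gap t → |y - t| ≤ K * gap t →
        (x - t) * (y - t) ≤ 3 / 4 * gap t ^ 2 →
        ‖Z t‖ ≤ (q ((x - t) * (y - t) / gap t ^ 2) + ε) * M)) ∧
    -- (3): the points where `|Z|` is maximal in the window
    ((∀ u : ℝ, |u - t| ≤ A → ‖Z u‖ ≤ ‖Z t‖) →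
      (∀ s : ℂ, riemannZeta s = 0 → 0 < s.re → s.re < 1 → ‖s - (1 / 2 + I * t)‖ ≤ (√3 / 2 - ε) * gap t →
        s.re = 1 / 2 ∧ Z s.im = 0 ∧ deriv Z s.im ≠ 0) ∧
      (∀ x y : ℝ, x < y → Z x = 0 → Z y = 0 → |x - t| ≤ (√3 / 2 - ε) * gap t → |y - t| ≤ (√3 / 2 - ε) * gap t →
        x < t ∧ t < y) ∧
      (∀ x y : ℝ, x ≠ y → Z x = 0 → Z y = 0 → |x - t| ≤ K * gap t → |y - t| ≤ K * gap t →
        (3 / 4 - ε) * gap t ^ 2 ≤ (x - t) * (y - t) ∨ (1 / 4 - ε) * gap t ^ 2 ≤ (t - x) * (y - t))) := by
  set e := min ε (1 / 8) with he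
  have he0 : 0 < e := by positivity
  have he1 : e ≤ 1 / 8 := min_le_right _ _
  have heε : e ≤ ε := min_le_left _ _
  obtain ⟨A1, T1, -, hT1, h1⟩ := J4.H62.NR.main (K := max K 1) (ε := e) (le_max_right _ _) he0
  obtain ⟨A2, T2, -, -, h2⟩ := J4.H62.NR.records (K := max K 1) (ε := e) (le_max_right _ _) he0
  refine ⟨max A1 A2, max T1 T2, fun t ht => ?_⟩
  obtain ⟨hg, h1⟩ := h1 t ((le_max_left _ _).trans ht)
  have h2 := h2 t ((le_max_right _ _).trans ht)
  have hgap : J4.H62.NR.gap t = gap t := rfl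
  rw [hgap] at hg h1 h2
  have hKK : K * gap t ≤ max K 1 * gap t := mul_le_mul_of_nonneg_right (le_max_left _ _) hg.le
  have hs3 : √3 ^ 2 = 3 := Real.sq_sqrt (by norm_num)
  have hs1 : 1.7 ≤ √3 := by
    apply Real.le_sqrt_of_sq_le; norm_num
  have hs2 : √3 ≤ 1.8 := by
    rw [Real.sqrt_le_left (by norm_num)]; norm_num
  have hxs : ∀ x : ℝ, ‖(1 / 2 + I * (x:ℂ)) - (1 / 2 + I * t)‖ = |x - t| := by
    intro x
    have : (1 / 2 + I * (x:ℂ)) - (1 / 2 + I * t) = ((x - t : ℝ) : ℂ) * I := by push_cast; ring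
    rw [this, norm_mul, Complex.norm_I, mul_one, Complex.norm_real, Real.norm_eq_abs]
  refine ⟨hg, fun M hM => ?_, fun hrec => ?_⟩
  · obtain ⟨hM0, ha, hb⟩ := h1 M (fun u hu => by
      rw [← Z_norm]; exact hM u (hu.trans (le_max_left _ _)))
    refine ⟨fun x hx hx' hd => ?_, fun s hs hs0 hs1 hs2 hd => ?_, fun x y hxy hx hy hxK hyK hP => ?_⟩
    · rw [Z_norm]
      have h3 := ha (1 / 2 + I * x) ((Z_zero_iff x).1 hx) (by simp) (by simp; norm_num)
        (Or.inr ((deriv_iff hx).1 hx')) (by rw [hxs]; exact hd)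
      rw [hxs, div_pow, sq_abs, ← div_pow] at h3
      refine h3.trans (mul_le_mul_of_nonneg_right ?_ hM0.le)
      unfold q; linarith
    · rw [Z_norm]
      refine (ha s hs hs0 hs1 (Or.inl hs2) hd).trans (mul_le_mul_of_nonneg_right ?_ hM0.le)
      unfold q; linarith
    · rw [Z_norm]
      refine (hb x y hxy ((Z_zero_iff x).1 hx) ((Z_zero_iff y).1 hy) (hxK.trans hKK) (hyK.trans hKK) hP).trans
        (mul_le_mul_of_nonneg_right ?_ hM0.le)
      unfold q; linarith
  · obtain ⟨ha, hb⟩ := h2 (fun u hu => by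
      rw [← Z_norm, ← Z_norm]; exact hrec u (hu.trans (le_max_right _ _)))
    have hrad : (√3 / 2 - ε) * gap t ≤ (√3 / 2 - e) * gap t := mul_le_mul_of_nonneg_right (by linarith) hg.le
    have hg2 : 0 < gap t ^ 2 := by positivity
    refine ⟨fun s hs hs0 hs1 hd => ?_, fun x y hxy hx hy hdx hdy => ?_, fun x y hxy hx hy hxK hyK => ?_⟩
    · obtain ⟨c1, c2⟩ := ha s hs hs0 hs1 (hd.trans hrad)
      have hse : s = 1 / 2 + I * (s.im : ℂ) := by
        apply Complex.ext
        · simp [c1]
        · simp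
      have hz : Z s.im = 0 := by rw [Z_zero_iff, ← hse]; exact hs
      refine ⟨c1, hz, fun h => c2 ?_⟩
      have := (deriv_iff hz).1 h
      rwa [← hse] at this
    · have hdx' := hdx.trans hrad
      have hdy' := hdy.trans hrad
      have hle1 : (√3 / 2 - e) * gap t ≤ max K 1 * gap t :=
        mul_le_mul_of_nonneg_right (le_trans (by linarith) (le_max_right _ _)) hg.le
      have h3 := hb x y hxy.ne ((Z_zero_iff x).1 hx) ((Z_zero_iff y).1 hy) (hdx'.trans hle1) (hdy'.trans hle1)
      have hprod : |(x - t) * (y - t)| ≤ ((√3 / 2 - e) * gap t) * ((√3 / 2 - e) * gap t) := by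
        rw [abs_mul]
        exact mul_le_mul hdx' hdy' (abs_nonneg _) ((abs_nonneg _).trans hdx')
      have hlt : ((√3 / 2 - e) * gap t) * ((√3 / 2 - e) * gap t) < (3 / 4 - e) * gap t ^ 2 := by
        have e1 : ((√3 / 2 - e) * gap t) * ((√3 / 2 - e) * gap t) = (√3 / 2 - e) ^ 2 * gap t ^ 2 := by ring
        rw [e1]
        apply mul_lt_mul_of_pos_right _ hg2
        nlinarith
      rcases h3 with h3 | h3
      · exfalso
        have := (le_abs_self _).trans hprod
        linarith
      · have h4 : (x - t) * (y - t) < 0 := by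
          have h5 : 0 < 1 / 4 - e := by linarith
          have h6 : 0 < (1 / 4 - e) * gap t ^ 2 := by positivity
          linarith
        rcases mul_neg_iff.1 h4 with h5 | h5
        · exfalso; linarith [h5.1, h5.2]
        · exact ⟨by linarith [h5.1], by linarith [h5.2]⟩
    · rcases hb x y hxy ((Z_zero_iff x).1 hx) ((Z_zero_iff y).1 hy) (hxK.trans hKK) (hyK.trans hKK) with h | h
      · left
        refine le_trans (mul_le_mul_of_nonneg_right ?_ hg2.le) h
        linarith
      · right
        have h5 : (1 / 4 - ε) * gap t ^ 2 ≤ (1 / 4 - e) * gap t ^ 2 :=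
          mul_le_mul_of_nonneg_right (by linarith) hg2.le
        linarith

end Pool.Agent.Results.MP_6bc78b_nt.NearLocalMaxima
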