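import Pool.Agent.J4.H50.KrMain

set_option autoImplicit false

/-!
# Simple zeros of Hardy's function with prescribed values of `p ^ (i γ)` at many primes

Unconditionally there is a constant `c > 0` such that for all large `T`, all intervals `(T, T + K]` with
`T ^ (1 - c) ≤ K ≤ T / 2`, every finite set `P` of primes, all tolerances `0 < e_p ≤ 1` with
`(1 + log |P|) ∑ (log p) / e_p ≤ c log T` and all points `z_p` of the unit circle

* the function `Z` has at least `(K log T / 20) ∏ e_p / (25 (1 + log |P|))` simple zeros `γ` in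
  `(T, T + K]` with `|p ^ (i γ) - z_p| < e_p` for all `p` in `P`;
* there are at most `K log T ∏ (8 e_p)` zeros of zeta in the critical strip, counted with multiplicity,
  whose ordinates `γ` in `(T, T + K]` satisfy `|p ^ (i γ) - z_p| ≤ e_p` for all `p` in `P`.

So the simple zeros of `Z` are dense in the torus of the `p ^ (i γ)` at the finest possible scale
(`e_p = C / log T` for fixed `P`), and for growing sets of primes: for `ε, η > 0` there is a `c > 0` such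
that at least `K T ^ (-η)` simple zeros in `(T, T + K]` have `|p ^ (i γ) - z_p| < ε` for ALL the primes
`p ≤ c log T / log log T`, whatever the `z_p` are.

The proof uses the theorem `SimpleZerosEveryWeight` of the starting files for the Dirichlet polynomials
`∏ (1 + w_p + ... + w_p ^ (J_p - 1)) ^ m`, `w_p = z_p p ^ (- i t)`, with `J_p` about `4 / e_p` and `m` about
`2 log |P| + 4`.
-/

open Complex

namespace Pool.Agent.Results.MP_6bc78b_nt.PrescribedPrimes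

/-- the phase `exp (i ϑ(t))`, with `ϑ(t) = arg Γ(1/4 + i t / 2) - (t / 2) log π` -/
noncomputable def phase (t : ℝ) : ℂ :=
  Gamma (1 / 4 + I * t / 2) / ‖Gamma (1 / 4 + I * t / 2)‖ * cexp (-(I * (t / 2) * Real.log Real.pi))

/-- Hardy's function `Z(t) = exp (i ϑ(t)) ζ(1/2 + i t)` -/
noncomputable def Z (t : ℝ) : ℂ := phase t * riemannZeta (1 / 2 + I * t)

/-- the simple zeros of `Z` in `(T₁, T₂]` -/
def simpleZeros (T₁ T₂ : ℝ) : Set ℝ := {t : ℝ | T₁ < t ∧ t ≤ T₂ ∧ Z t = 0 ∧ deriv Z t ≠ 0}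

/-- all zeros of zeta in the open critical strip with ordinates in `(T₁, T₂]` -/
def allZeros (T₁ T₂ : ℝ) : Set ℂ :=
  {s : ℂ | riemannZeta s = 0 ∧ 0 < s.re ∧ s.re < 1 ∧ T₁ < s.im ∧ s.im ≤ T₂}

/-- the multiplicity of a zero of zeta -/
noncomputable def mult (s : ℂ) : ℕ := analyticOrderNatAt riemannZeta s

theorem result :
    (∃ c T₀ : ℝ, 0 < c ∧ 1 ≤ T₀ ∧ ∀ T : ℝ, T₀ ≤ T → ∀ K : ℝ, T ^ (1 - c) ≤ K → K ≤ T / 2 →
      ∀ P : Finset ℕ, (∀ p ∈ P, p.Prime) → ∀ e : ℕ → ℝ, (∀ p ∈ P, 0 < e p ∧ e p ≤ 1) →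
      (1 + Real.log P.card) * ∑ p ∈ P, Real.log p / e p ≤ c * Real.log T →
      ∀ z : ℕ → ℂ, (∀ p, ‖z p‖ = 1) →
      K * Real.log T / 20 * ∏ p ∈ P, (e p / (25 * (1 + Real.log P.card))) ≤
        ({t ∈ simpleZeros T (T + K) | ∀ p ∈ P, ‖(p : ℂ) ^ (I * t) - z p‖ < e p}.ncard : ℝ) ∧
      ∑ᶠ s ∈ {s ∈ allZeros T (T + K) | ∀ p ∈ P, ‖(p : ℂ) ^ (I * s.im) - z p‖ ≤ e p},
        (mult s : ℝ) ≤ K * Real.log T * ∏ p ∈ P, (8 * e p)) ∧
    (∀ ε η : ℝ, 0 < ε → 0 < η → ∃ c T₀ : ℝ, 0 < c ∧ ∀ T : ℝ, T₀ ≤ T →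
      ∀ K : ℝ, T ^ (1 - c) ≤ K → K ≤ T / 2 → ∀ z : ℕ → ℂ, (∀ p, ‖z p‖ = 1) →
      K * T ^ (-η) ≤ ({t ∈ simpleZeros T (T + K) | ∀ p : ℕ, p.Prime →
        (p : ℝ) ≤ c * Real.log T / Real.log (Real.log T) →
          ‖(p : ℂ) ^ (I * t) - z p‖ < ε}.ncard : ℝ)) :=
  ⟨Pool.Agent.J4.H50.Kr.two_sided, Pool.Agent.J4.H50.Kr.primes_up_to⟩

end Pool.Agent.Results.MP_6bc78b_nt.PrescribedPrimes
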