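import Pool.Agent.J4.H62.RL.Main
import Pool.Agent.W354.ZP.Num

/-!
# Runs of consecutive simple zeros of Hardy's function with the law of the derivative

Unconditionally: for every interval `(a, b)`, every `m` and every `ε > 0` there are `A, δ > 0` such that for all
large `T` at least `((2 - c - m (c - 1) / 2) g(a, b) - ε) N` of the zeros of zeta with ordinate in `(T, 2T]` (`N` in
number, with multiplicity) are first members of a run of `m + 1` consecutive zeros of `Z`, with no other ordinate of a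
zero of zeta in between, of total length at most `A / log T`, all of which are simple, have distance at least
`δ / log T` from every other nontrivial zero of zeta, and satisfy
`a < (log |Z'(t)| - log log T) / √(log log T / 2) < b`.  Here `c = 1/2 + cot(1/√2)/√2 ≤ 1.3275`, and `g(a, b)` is the
mass that the standard normal law gives to `(a, b)`.
-/

open Filter Topology Complex

namespace Pool.Agent.Results.MP_6bc78b_nt.RunsWithLaw

/-- the phase `exp (i ϑ(t))`, with `ϑ(t) = arg Γ(1/4 + i t / 2) - (t / 2) log π` -/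
noncomputable def phase (t : ℝ) : ℂ :=
  Gamma (1 / 4 + I * t / 2) / ‖Gamma (1 / 4 + I * t / 2)‖ * cexp (-(I * (t / 2) * Real.log Real.pi))

/-- Hardy's function `Z(t) = exp (i ϑ(t)) ζ(1/2 + i t)` -/
noncomputable def Z (t : ℝ) : ℂ := phase t * riemannZeta (1 / 2 + I * t)

/-- the mass of `(a, b)` under the standard normal law -/
noncomputable def normalMass (a b : ℝ) : ℝ := ∫ x in a..b, Real.exp (-x ^ 2 / 2) / Real.sqrt (2 * Real.pi)

/-- the inverse of the Montgomery-Taylor constant -/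
noncomputable def c : ℝ := 1 / 2 + Real.cot (1 / Real.sqrt 2) / Real.sqrt 2

/-- the nontrivial zeros of zeta with ordinate in `(T, 2T]` -/
def zeros (T : ℝ) : Set ℂ :=
  {s : ℂ | riemannZeta s = 0 ∧ 0 < s.re ∧ s.re < 1 ∧ T < s.im ∧ s.im ≤ 2 * T}

/-- the number of nontrivial zeros with ordinate in `(T, 2T]`, counted with multiplicity -/
noncomputable def N (T : ℝ) : ℕ := ∑ᶠ s ∈ zeros T, analyticOrderNatAt riemannZeta s

/-- the normalised logarithm of `|Z'(t)|` -/
noncomputable def size (T t : ℝ) : ℝ :=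
  (Real.log ‖deriv Z t‖ - Real.log (Real.log T)) / Real.sqrt (Real.log (Real.log T) / 2)

/-- `t` is a simple zero of `Z`, at distance at least `δ / log T` from all other nontrivial zeros of zeta (on or off
the critical line), and the normalised logarithm of `|Z'(t)|` lies in `(a, b)` -/
def good (a b δ T t : ℝ) : Prop :=
  Z t = 0 ∧ deriv Z t ≠ 0 ∧
    (∀ s : ℂ, riemannZeta s = 0 → 0 < s.re → s.re < 1 → s ≠ 1 / 2 + I * t →
      δ / Real.log T ≤ ‖s - (1 / 2 + I * t)‖) ∧
    a < size T t ∧ size T t < b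

/-- the points `t` which start a run `t = u 0 < u 1 < ... < u m` of such zeros in `(T, 2T]`, of total length at most
`A / log T`, such that no other number in `[u 0, u m]` is the ordinate of a nontrivial zero of zeta -/
def runs (m : ℕ) (a b A δ T : ℝ) : Set ℝ :=
  {t : ℝ | ∃ u : Fin (m + 1) → ℝ, StrictMono u ∧ u 0 = t ∧ T < u 0 ∧ u (Fin.last m) ≤ 2 * T ∧
    (∀ j, good a b δ T (u j)) ∧
    (∀ s : ℂ, riemannZeta s = 0 → 0 < s.re → s.re < 1 → u 0 ≤ s.im → s.im ≤ u (Fin.last m) →
      ∃ j, s.im = u j) ∧ u (Fin.last m) - u 0 ≤ A / Real.log T}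

lemma gamma_ne (t : ℝ) : Gamma (1 / 4 + I * t / 2) ≠ 0 := by
  apply Gamma_ne_zero_of_re_pos
  simp

lemma gamma_cont : Continuous fun t : ℝ => Gamma (1 / 4 + I * t / 2) := by
  rw [continuous_iff_continuousAt]
  intro t
  have h1 : ContinuousAt Gamma (1 / 4 + I * t / 2) := by
    refine (differentiableAt_Gamma _ fun m hm => ?_).continuousAt
    have := congrArg Complex.re hm
    simp at this
    have hm0 : (0 : ℝ) ≤ m := Nat.cast_nonneg m
    linarith
  exact ContinuousAt.comp (f := fun t : ℝ => (1 / 4 + I * t / 2 : ℂ)) h1 (by fun_prop)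

lemma phase_cont : Continuous phase := by
  unfold phase
  refine Continuous.mul (gamma_cont.div ?_ ?_) (by fun_prop)
  · exact Complex.continuous_ofReal.comp gamma_cont.norm
  · intro t
    rw [Complex.ofReal_ne_zero]
    exact norm_ne_zero_iff.mpr (gamma_ne t)

lemma phase_ne (t : ℝ) : phase t ≠ 0 := by
  unfold phase
  refine mul_ne_zero (div_ne_zero (gamma_ne t) ?_) (Complex.exp_ne_zero _)
  rw [Complex.ofReal_ne_zero]
  exact norm_ne_zero_iff.mpr (gamma_ne t)

lemma Z_zero_iff (t : ℝ) : Z t = 0 ↔ riemannZeta (1 / 2 + I * t) = 0 := by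
  unfold Z
  rw [mul_eq_zero]
  exact ⟨fun h => h.resolve_left (phase_ne t), Or.inr⟩

lemma zeta_diff (t : ℝ) : DifferentiableAt ℂ riemannZeta (1 / 2 + I * t) := by
  refine differentiableAt_riemannZeta fun h => ?_
  have := congrArg Complex.re h
  norm_num at this

lemma Z_hasDerivAt (t : ℝ) (h : riemannZeta (1 / 2 + I * t) = 0) :
    HasDerivAt Z (phase t * (deriv riemannZeta (1 / 2 + I * t) * I)) t := by
  have hg : HasDerivAt (fun u : ℝ => riemannZeta (1 / 2 + I * u))
      (deriv riemannZeta (1 / 2 + I * t) * I) t := by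
    have h1 : HasDerivAt (fun u : ℝ => (1 / 2 + I * u : ℂ)) I t := by
      have h2 : HasDerivAt (fun u : ℝ => (u : ℂ)) 1 t := Complex.ofRealCLM.hasDerivAt
      simpa using (h2.const_mul I).const_add (1 / 2 : ℂ)
    exact HasDerivAt.comp (h₂ := riemannZeta) t (zeta_diff t).hasDerivAt h1
  rw [hasDerivAt_iff_tendsto_slope] at hg ⊢
  have h3 : Tendsto phase (𝓝[≠] t) (𝓝 (phase t)) :=
    phase_cont.continuousAt.tendsto.mono_left nhdsWithin_le_nhds
  refine (h3.mul hg).congr fun u => ?_
  have hZ : Z t = 0 := (Z_zero_iff t).mpr h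
  rw [slope_def_module, slope_def_module, hZ, h, sub_zero, sub_zero]
  unfold Z
  simp only [Complex.real_smul]
  ring

lemma zeta_analytic {s : ℂ} (hs : s ≠ 1) : AnalyticAt ℂ riemannZeta s := by
  have : DifferentiableOn ℂ riemannZeta ({1}ᶜ : Set ℂ) := fun z hz =>
    (differentiableAt_riemannZeta hz).differentiableWithinAt
  exact this.analyticAt (isOpen_compl_singleton.mem_nhds hs)

/-- a zero of `Z` is simple if the corresponding zero of zeta is simple -/
lemma simple_of_order {t : ℝ} (h : riemannZeta (1 / 2 + I * t) = 0)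
    (h1 : analyticOrderNatAt riemannZeta (1 / 2 + I * t) = 1) : deriv Z t ≠ 0 := by
  rw [(Z_hasDerivAt t h).deriv]
  refine mul_ne_zero (phase_ne t) (mul_ne_zero ?_ I_ne_zero)
  have hs : (1 / 2 + I * t : ℂ) ≠ 1 := by
    intro h
    have := congrArg Complex.re h
    norm_num at this
  have ha := zeta_analytic hs
  have h2 : analyticOrderAt riemannZeta (1 / 2 + I * t) = 1 := by
    unfold analyticOrderNatAt at h1
    have h3 : analyticOrderAt riemannZeta (1 / 2 + I * t) ≠ ⊤ := by
      intro h4; rw [h4] at h1; simp at h1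
    rw [← ENat.coe_toNat h3, h1]; rfl
  have h3 := ha.analyticOrderAt_deriv_add_one
  simp only [h, sub_zero] at h3
  rw [h2] at h3
  have h4 : analyticOrderAt (deriv riemannZeta) (1 / 2 + I * t) = 0 := by
    revert h3
    generalize analyticOrderAt (deriv riemannZeta) (1 / 2 + I * t) = x
    intro h3
    cases x with
    | top => simp at h3
    | coe n =>
      have h6 : n + 1 = 1 := by exact_mod_cast h3
      have h7 : n = 0 := by omega
      rw [h7]; rfl
  exact ha.deriv.analyticOrderAt_eq_zero.mp h4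

lemma zeros_eq (T : ℝ) : zeros T = H370.zset riemannZeta T (2 * T) := by
  ext s
  simp only [zeros, H370.zset, Set.mem_ofPred_eq]
  tauto

/-- the sets of nontrivial zeros that are counted are finite -/
theorem zeros_finite (T : ℝ) (h : 0 < T) : (zeros T).Finite := by
  rw [zeros_eq]
  exact H370.zset_finite' H370.good_zeta T (2 * T) h

lemma N_eq (T : ℝ) : N T = H370.NN riemannZeta T (2 * T) := by
  unfold N H370.NN H370.mult
  rw [zeros_eq]

/-- the sets `runs` are finite -/
theorem runs_finite (m : ℕ) (a b A δ T : ℝ) (h : 0 < T) : (runs m a b A δ T).Finite := by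
  have hinj : Function.Injective fun t : ℝ => (1 / 2 + I * t : ℂ) := by
    intro a b hab
    have := congrArg Complex.im hab
    simpa using this
  refine Set.Finite.of_finite_image ((zeros_finite T h).subset ?_) hinj.injOn
  rintro s ⟨t, ⟨u, h1, h2, h3, h4, h5, -, -⟩, rfl⟩
  have h8 : u 0 ≤ u (Fin.last m) := h1.monotone (Fin.zero_le _)
  rw [← h2]
  refine ⟨(Z_zero_iff _).mp (h5 0).1, ?_, ?_, ?_, ?_⟩ <;> simp <;> first | assumption | norm_num
  linarith

lemma phase_norm (t : ℝ) : ‖phase t‖ = 1 := by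
  unfold phase
  rw [norm_mul, norm_div, Complex.norm_real, norm_norm, div_self (norm_ne_zero_iff.mpr (gamma_ne t)),
    Complex.norm_exp, one_mul]
  have : (-(I * ((t : ℂ) / 2) * (Real.log Real.pi : ℂ))).re = 0 := by
    have e : -(I * ((t : ℂ) / 2) * (Real.log Real.pi : ℂ)) = ((-(t / 2 * Real.log Real.pi) : ℝ) : ℂ) * I := by
      push_cast; ring
    rw [e]
    simp
  rw [this, Real.exp_zero]

lemma nrm_eq (t y : ℝ) : Pool.Agent.Y745.SW.nrm t y =
    (y - Real.log (Real.log t)) / Real.sqrt (Real.log (Real.log t) / 2) := by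
  unfold Pool.Agent.Y745.SW.nrm
  rw [Real.sqrt_div' _ (by norm_num : (0:ℝ) ≤ 2), div_div_eq_mul_div]
  ring

lemma mass_eq {a b : ℝ} (hab : a < b) : Pool.Agent.Y745.SW.Gm01 a b = normalMass a b := by
  unfold Pool.Agent.Y745.SW.Gm01 normalMass
  rw [MeasureTheory.measureReal_def, ProbabilityTheory.gaussianReal_apply_eq_integral _ one_ne_zero,
    ENNReal.toReal_ofReal (MeasureTheory.integral_nonneg fun x => ProbabilityTheory.gaussianPDFReal_nonneg _ _ _),
    intervalIntegral.integral_of_le hab.le, MeasureTheory.integral_Ioc_eq_integral_Ioo]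
  refine MeasureTheory.integral_congr_ae (Filter.Eventually.of_forall fun x => ?_)
  simp only [ProbabilityTheory.gaussianPDFReal, NNReal.coe_one, mul_one, sub_zero]
  rw [div_eq_inv_mul (Real.exp _)]

open Pool.Agent.J4.H62.RL Pool.Agent.TH299.Runs in
lemma starts_sub {m : ℕ} {a b A δ T U1 U2 : ℝ} (hT : 10 ≤ T) (hδ : 0 < δ) (hδ1 : δ ≤ 1 / 10) (h1 : T ≤ U1)
    (h2 : U1 ≤ T + 1) (h3 : 2 * T - 1 ≤ U2) (h4 : U2 ≤ 2 * T) :
    {t : ℝ | T + 2 ≤ t ∧ Starts (ords U1 U2 : Set ℝ) (gords a b δ T U1 U2 : Set ℝ) m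
        (A / Real.log T) t} ⊆ runs m a b A δ T := by
  have hL1 : 1 < Real.log T := by
    rw [Real.lt_log_iff_exp_lt (by linarith)]
    linarith [Real.exp_one_lt_d9]
  have hU1 : 1 ≤ U1 := by linarith
  rintro t ⟨ht, u, hu1, hu2, hu3, hu4, hu5⟩
  have hall : ∀ j, ∃ s ∈ Pool.Agent.Y745.SW.isoS U1 U2 (δ / Real.log T), s.im = u j ∧ T + 2 ≤ s.im ∧
      s.im ≤ 2 * T - 2 ∧ a < Pool.Agent.Y745.SW.nrm T (Real.log ‖deriv riemannZeta s‖) ∧
      Pool.Agent.Y745.SW.nrm T (Real.log ‖deriv riemannZeta s‖) < b := by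
    intro j
    have h5 := hu3 j
    rw [Finset.mem_coe] at h5
    unfold gords at h5
    rw [Finset.mem_image] at h5
    obtain ⟨s, hs, hsu⟩ := h5
    rw [Finset.mem_filter] at hs
    exact ⟨s, hs.1, hsu, hs.2⟩
  refine ⟨u, hu1, hu2, ?_, ?_, fun j => ?_, fun s a1 a2 a3 a4 a5 => ?_, hu5⟩
  · rw [hu2]; linarith
  · obtain ⟨s, -, h5, -, h6, -⟩ := hall (Fin.last m)
    rw [← h5]; linarith
  · obtain ⟨s, hsI, hsu, hs1, hs2, hs3, hs4⟩ := hall j
    unfold Pool.Agent.Y745.SW.isoS at hsI
    rw [Finset.mem_filter] at hsI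
    obtain ⟨hsZ, hre, hmul, hiso⟩ := hsI
    have hsz := (H370.mem_Zf H370.good_zeta hU1).mp hsZ
    have hs0 : (1 / 2 + I * s.im : ℂ) = s := by
      apply Complex.ext
      · simp [hre]
      · simp
    have hz : riemannZeta (1 / 2 + I * (s.im : ℂ)) = 0 := by rw [hs0]; exact hsz.2.2.2.2
    have hd : deriv Z s.im ≠ 0 := simple_of_order hz (by rw [hs0]; exact hmul)
    have hn : ‖deriv Z s.im‖ = ‖deriv riemannZeta s‖ := by
      rw [(Z_hasDerivAt s.im hz).deriv, norm_mul, norm_mul, phase_norm, Complex.norm_I, one_mul,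
        mul_one, hs0]
    rw [← hsu]
    have hsize : size T s.im = Pool.Agent.Y745.SW.nrm T (Real.log ‖deriv riemannZeta s‖) := by
      unfold size
      rw [nrm_eq, hn]
    refine ⟨(Z_zero_iff _).mpr hz, hd, ?_, by rw [hsize]; exact hs3, by rw [hsize]; exact hs4⟩
    intro s' b1 b2 b3 b4
    rw [hs0] at b4 ⊢
    by_cases hin : U1 < s'.im ∧ s'.im ≤ U2
    · have h6 := hiso s' ((H370.mem_Zf H370.good_zeta hU1).mpr ⟨b2, b3, hin.1, hin.2, b1⟩) b4
      rw [norm_sub_rev]; exact h6
    · have h7 : 1 ≤ |s'.im - s.im| := by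
        rw [not_and_or] at hin
        rcases hin with h | h
        · push Not at h
          rw [abs_of_nonpos (by linarith)]; linarith
        · push Not at h
          rw [abs_of_nonneg (by linarith)]; linarith
      have h8 : |s'.im - s.im| ≤ ‖s' - s‖ := by
        have := Complex.abs_im_le_norm (s' - s)
        rwa [Complex.sub_im] at this
      have h9 : δ / Real.log T ≤ 1 := by
        rw [div_le_one (by linarith)]; linarith
      linarith
  · obtain ⟨s1, -, h5, -, h6, -⟩ := hall (Fin.last m)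
    have hs : s.im ∈ ords U1 U2 := by
      unfold ords
      rw [Finset.mem_image]
      refine ⟨s, (H370.mem_Zf H370.good_zeta hU1).mpr ⟨a2, a3, ?_, ?_, a1⟩, rfl⟩
      · rw [hu2] at a4; linarith
      · rw [← h5] at a5; linarith
    obtain ⟨j, hj⟩ := hu4 s.im hs a4 a5
    exact ⟨j, hj.symm⟩

theorem result :
    (∀ (m : ℕ) (a b : ℝ), a < b → ∀ ε : ℝ, 0 < ε → ∃ A δ T₀ : ℝ, 0 < A ∧ 0 < δ ∧ ∀ T : ℝ, T₀ ≤ T →
      ((2 - c - m * ((c - 1) / 2)) * normalMass a b - ε) * (N T : ℝ) ≤
        ((runs m a b A δ T).ncard : ℝ)) ∧ c ≤ 1.3275 := by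
  refine ⟨fun m a b hab ε hε => ?_, Pool.Agent.W354.ZP.cMTinv_sharp⟩
  obtain ⟨δ, A, hδ, hδ1, hA, hev⟩ := Pool.Agent.J4.H62.RL.runs_law hab hε m
  obtain ⟨T1, hT1⟩ := Filter.eventually_atTop.1 hev
  refine ⟨A, δ, max T1 10, hA, hδ, fun T hT => ?_⟩
  have hTb : 10 ≤ T := (le_max_right _ _).trans hT
  obtain ⟨U1, U2, h1, h2, h3, h4, h5⟩ := hT1 T ((le_max_left _ _).trans hT)
  have hc : H370.cMTinv = c := rfl
  rw [mass_eq hab, hc, mul_div_assoc, ← N_eq] at h5
  refine h5.trans (Nat.cast_le.2 (Set.ncard_le_ncard (starts_sub hTb hδ hδ1 h1 h2 h3 h4)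
    (runs_finite m a b A δ T (by linarith))))

end Pool.Agent.Results.MP_6bc78b_nt.RunsWithLaw
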